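import Mathlib
import Pool.Graph.R_pool_sql_team_seeded_b0a926ef.R650.EntZ

/-!
# The algebraic entropy of a continuous endomorphism of a compact abelian group

For every compact Hausdorff abelian group `G` (torsion or not) and every continuous endomorphism `φ`
of `G` the algebraic entropy `ent(φ)` is `0` or `∞`, and `ent(φ) = 0` if and only if `φ` is
quasi-periodic on `G[m] = {x | m x = 0}` for every `m ≥ 1`, i.e. `φ^i = φ^j` on `G[m]` for some
`i < j`.  In particular, a continuous endomorphism `φ` of `K^I` (`K` a finite abelian group, `I` any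
set) has entropy `∞`, unless `φ^i = φ^j` for some `i < j`; then it has entropy `0`.
-/

set_option autoImplicit false

namespace Pool.Agent.Results.MP_e13f3c_al.AllCompactGroups

open Filter Topology Pool.Agent.R650.EntZ

universe u v

variable {G : Type u} [AddCommGroup G]

/-- The restriction of an endomorphism to an invariant subgroup. -/
def restr (φ : AddMonoid.End G) (N : AddSubgroup G) (h : ∀ x ∈ N, φ x ∈ N) : AddMonoid.End N :=
  ((φ : G →+ G).comp N.subtype).codRestrict N fun x => h x x.2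

theorem restr_apply (φ : AddMonoid.End G) (N : AddSubgroup G) (h : ∀ x ∈ N, φ x ∈ N) (x : N) :
    ((restr φ N h x : N) : G) = φ x := rfl

theorem restr_pow (φ : AddMonoid.End G) (N : AddSubgroup G) (h : ∀ x ∈ N, φ x ∈ N) (k : ℕ)
    (x : N) : (((restr φ N h ^ k) x : N) : G) = (φ ^ k) x := by
  induction k with
  | zero => rfl
  | succ k ih =>
    have h1 : (restr φ N h ^ (k + 1)) x = restr φ N h ((restr φ N h ^ k) x) := by
      rw [pow_succ']; rfl
    have h2 : (φ ^ (k + 1)) (x : G) = φ ((φ ^ k) x) := by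
      rw [pow_succ']; rfl
    rw [h1, h2, restr_apply, ih]

theorem traj_map (φ : AddMonoid.End G) (N : AddSubgroup G) (h : ∀ x ∈ N, φ x ∈ N)
    (F : AddSubgroup N) (n : ℕ) :
    traj φ (F.map N.subtype) n = (traj (restr φ N h) F n).map N.subtype := by
  apply le_antisymm
  · refine traj_le ?_
    rintro i hi _ ⟨x, hx, rfl⟩
    refine ⟨(restr φ N h ^ i) x, mem_traj _ _ hi hx, ?_⟩
    exact restr_pow φ N h i x
  · rw [AddSubgroup.map_le_iff_le_comap]
    refine traj_le fun i hi x hx => ?_
    rw [AddSubgroup.mem_comap, AddSubgroup.coe_subtype, restr_pow]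
    exact mem_traj φ _ hi ⟨x, hx, rfl⟩

theorem H_map (φ : AddMonoid.End G) (N : AddSubgroup G) (h : ∀ x ∈ N, φ x ∈ N)
    (F : AddSubgroup N) : H φ (F.map N.subtype) = H (restr φ N h) F := by
  unfold H
  congr 1
  funext n
  rw [traj_map φ N h]
  rw [Nat.card_congr (AddSubgroup.equivMapOfInjective (traj (restr φ N h) F n) N.subtype
    N.subtype_injective).toEquiv.symm]

theorem le_ent (φ : AddMonoid.End G) (F : AddSubgroup G) (hF : Finite F) :
    (H φ F : EReal) ≤ ent φ :=
  le_iSup (fun F : {F : AddSubgroup G // Finite F} => (H φ F.1 : EReal)) ⟨F, hF⟩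

theorem ent_nonneg (φ : AddMonoid.End G) : 0 ≤ ent φ := by
  refine le_trans ?_ (le_ent φ ⊥ inferInstance)
  exact_mod_cast H_nonneg φ ⊥

theorem ent_restr_le (φ : AddMonoid.End G) (N : AddSubgroup G) (h : ∀ x ∈ N, φ x ∈ N) :
    ent (restr φ N h) ≤ ent φ := by
  refine iSup_le ?_
  rintro ⟨F, hF⟩
  have h1 : Finite (F.map N.subtype) :=
    Finite.of_equiv _ (AddSubgroup.equivMapOfInjective F N.subtype N.subtype_injective).toEquiv
  rw [← H_map φ N h F]
  exact le_ent φ _ h1

/-- The subgroup `G[m]`. -/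
def tor (G : Type u) [AddCommGroup G] (m : ℕ) : AddSubgroup G := (nsmulAddMonoidHom m).ker

theorem mem_tor {m : ℕ} {x : G} : x ∈ tor G m ↔ m • x = 0 := by
  unfold tor
  rw [AddMonoidHom.mem_ker]
  rfl

theorem tor_inv (φ : AddMonoid.End G) (m : ℕ) : ∀ x ∈ tor G m, φ x ∈ tor G m := by
  intro x hx
  rw [mem_tor] at hx ⊢
  rw [← map_nsmul φ m x, hx, map_zero]

theorem ent_le_of_tor (φ : AddMonoid.End G)
    (h : ∀ m : ℕ, 0 < m → ent (restr φ (tor G m) (tor_inv φ m)) ≤ 0) : ent φ ≤ 0 := by
  refine iSup_le ?_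
  rintro ⟨F, hF⟩
  have hm : 0 < Nat.card F := Nat.card_pos
  have hle : F ≤ tor G (Nat.card F) := by
    intro x hx
    rw [mem_tor]
    have h1 : Nat.card F • (⟨x, hx⟩ : F) = 0 := card_nsmul_eq_zero'
    exact congrArg Subtype.val h1
  have h1 : (F.addSubgroupOf (tor G (Nat.card F))).map (tor G (Nat.card F)).subtype = F := by
    rw [AddSubgroup.addSubgroupOf_map_subtype, inf_eq_left.2 hle]
  have h2 : Finite (F.addSubgroupOf (tor G (Nat.card F))) :=
    Finite.of_equiv _ (AddSubgroup.addSubgroupOfEquivOfLe hle).symm.toEquiv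
  have h3 := le_ent (restr φ (tor G (Nat.card F)) (tor_inv φ _)) _ h2
  rw [← H_map, h1] at h3
  exact h3.trans (h _ hm)

theorem traj_le_succ (φ : AddMonoid.End G) (F : AddSubgroup G) (n : ℕ) :
    traj φ F n ≤ traj φ F (n + 1) :=
  traj_le fun _ hi _ hx => mem_traj φ F (by omega) hx

/-- If `H(φ, F) = 0`, the trajectory stops growing. -/
theorem stable (φ : AddMonoid.End G) (F : AddSubgroup G) [Finite F] (h : H φ F ≤ 0) :
    ∃ n, traj φ F (n + 1) = traj φ F n := by
  by_contra hcon
  push Not at hcon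
  have h1 : ∀ n, 2 ^ n ≤ Nat.card (traj φ F n) := by
    intro n
    induction n with
    | zero => rw [pow_zero]; exact Nat.card_pos
    | succ n ih =>
      have h2 := AddSubgroup.card_dvd_of_le (traj_le_succ φ F n)
      obtain ⟨c, hc⟩ := h2
      have h3 : 0 < Nat.card (traj φ F (n + 1)) := Nat.card_pos
      have h4 : c ≠ 0 := by rintro rfl; simp at hc; omega
      have h5 : c ≠ 1 := by
        rintro rfl
        rw [mul_one] at hc
        exact hcon n (AddSubgroup.eq_of_le_of_card_ge (traj_le_succ φ F n) hc.le).symm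
      have h6 : 2 ≤ c := by omega
      calc 2 ^ (n + 1) = 2 ^ n * 2 := pow_succ _ _
        _ ≤ Nat.card (traj φ F n) * c := Nat.mul_le_mul ih h6
        _ = _ := hc.symm
  have h2 : Real.log 2 ≤ H φ F := by
    refine ge_of_tendsto (tendsto_H φ F) ?_
    filter_upwards [eventually_gt_atTop 0] with n hn
    have hn' : (0 : ℝ) < n := by exact_mod_cast hn
    rw [le_div_iff₀ hn', mul_comm, ← Real.log_pow]
    refine Real.log_le_log (by positivity) ?_
    exact_mod_cast h1 n
  have := Real.log_pos one_lt_two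
  linarith

/-- If `ent(φ) = 0`, the orbit of every torsion element is finite. -/
theorem orbit (φ : AddMonoid.End G) (h : ent φ = 0) (x : G) (hx : IsOfFinAddOrder x) :
    ∃ i p : ℕ, (φ ^ i) x = (φ ^ (i + p + 1)) x := by
  have hF : Finite (AddSubgroup.zmultiples x) := hx.finite_zmultiples
  have hH : H φ (AddSubgroup.zmultiples x) ≤ 0 := by
    have := le_ent φ _ hF
    rw [h] at this
    exact_mod_cast this
  obtain ⟨n, hn⟩ := stable φ _ hH
  have hmem : ∀ k, (φ ^ k) x ∈ traj φ (AddSubgroup.zmultiples x) n := by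
    have hstep : ∀ y ∈ traj φ (AddSubgroup.zmultiples x) n,
        φ y ∈ traj φ (AddSubgroup.zmultiples x) n := by
      have : traj φ (AddSubgroup.zmultiples x) n ≤
          (traj φ (AddSubgroup.zmultiples x) n).comap φ := by
        refine traj_le fun i hi z hz => ?_
        show φ ((φ ^ i) z) ∈ traj φ (AddSubgroup.zmultiples x) n
        have h1 : φ ((φ ^ i) z) = (φ ^ (i + 1)) z := by
          rw [pow_succ']; rfl
        have h2 : (φ ^ (i + 1)) z ∈ traj φ (AddSubgroup.zmultiples x) (n + 1) :=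
          mem_traj φ _ (by omega) hz
        rw [hn, ← h1] at h2
        exact h2
      exact fun y hy => this hy
    intro k
    induction k with
    | zero =>
      rw [← hn]
      exact mem_traj φ _ (by omega) (AddSubgroup.mem_zmultiples x)
    | succ k ih =>
      have h1 : (φ ^ (k + 1)) x = φ ((φ ^ k) x) := by
        rw [pow_succ']; rfl
      rw [h1]
      exact hstep _ ih
  obtain ⟨i, j, hij, he⟩ := Finite.exists_ne_map_eq_of_infinite
    (fun k : ℕ => (⟨(φ ^ k) x, hmem k⟩ : traj φ (AddSubgroup.zmultiples x) n))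
  have he' : (φ ^ i) x = (φ ^ j) x := congrArg Subtype.val he
  rcases lt_or_gt_of_ne hij with h1 | h1
  · exact ⟨i, j - i - 1, by rw [he']; congr 2; omega⟩
  · exact ⟨j, i - j - 1, by rw [← he']; congr 2; omega⟩

theorem pow_add_apply (φ : AddMonoid.End G) (a b : ℕ) (x : G) :
    (φ ^ (a + b)) x = (φ ^ a) ((φ ^ b) x) := by
  rw [pow_add]; rfl

theorem period (φ : AddMonoid.End G) {a b I P : ℕ} {x : G} (h : (φ ^ a) x = (φ ^ (a + b)) x)
    (hI : a ≤ I) (hP : b ∣ P) : (φ ^ I) x = (φ ^ (I + P)) x := by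
  obtain ⟨k, rfl⟩ := hP
  have h1 : ∀ k : ℕ, (φ ^ (a + b * k)) x = (φ ^ a) x := by
    intro k
    induction k with
    | zero => rw [mul_zero, add_zero]
    | succ k ih =>
      have e1 : a + b * (k + 1) = b * k + (a + b) := by ring
      have e2 : a + b * k = b * k + a := by ring
      rw [e1, pow_add_apply, ← h, ← pow_add_apply, ← e2, ih]
  have e1 : I = (I - a) + a := by omega
  have e2 : I + b * k = (I - a) + (a + b * k) := by omega
  rw [e2, pow_add_apply φ (I - a), h1, ← pow_add_apply, ← e1]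

/-- A continuous endomorphism with entropy `0` of a compact torsion abelian group is
quasi-periodic. -/
theorem quasiperiodic [TopologicalSpace G] [IsTopologicalAddGroup G] [CompactSpace G]
    [T2Space G] (htors : ∀ x : G, IsOfFinAddOrder x) (φ : AddMonoid.End G)
    (hφ : Continuous φ) (h : ent φ = 0) : ∃ i j : ℕ, i < j ∧ φ ^ i = φ ^ j := by
  have hφn : ∀ n : ℕ, Continuous (fun v => (φ ^ n) v) := by
    intro n
    induction n with
    | zero => exact continuous_id
    | succ n ih =>
      have : (fun v => (φ ^ (n + 1)) v) = fun v => (φ ^ n) (φ v) := by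
        funext v
        rw [pow_succ]
        rfl
      rw [this]
      exact ih.comp hφ
  let K : ℕ × ℕ → AddSubgroup G := fun q =>
    AddMonoidHom.eqLocus ((φ ^ q.1 : AddMonoid.End G) : G →+ G)
      ((φ ^ (q.1 + q.2 + 1) : AddMonoid.End G) : G →+ G)
  have hK : ∀ q x, x ∈ K q ↔ (φ ^ q.1) x = (φ ^ (q.1 + q.2 + 1)) x := fun q x => Iff.rfl
  have hcover : (⋃ q, (K q : Set G)) = Set.univ := by
    refine Set.eq_univ_of_forall fun v => ?_
    obtain ⟨i, p, hip⟩ := orbit φ h v (htors v)
    exact Set.mem_iUnion.2 ⟨(i, p), hip⟩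
  obtain ⟨⟨i, p⟩, g, hg⟩ := nonempty_interior_of_iUnion_of_closed
    (f := fun q => (K q : Set G)) (fun q => isClosed_eq (hφn _) (hφn _)) hcover
  have hopen : IsOpen (K (i, p) : Set G) :=
    AddSubgroup.isOpen_of_mem_nhds (K (i, p)) (g := g) (mem_interior_iff_mem_nhds.1 hg)
  have hfq : Finite (G ⧸ K (i, p)) := AddSubgroup.quotient_finite_of_isOpen _ hopen
  have := Fintype.ofFinite (G ⧸ K (i, p))
  choose a b hab using fun q : G ⧸ K (i, p) => orbit φ h q.out (htors _)
  refine ⟨i + ∑ q, a q, i + ∑ q, a q + (p + 1) * ∏ q, (b q + 1), ?_, ?_⟩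
  · have : 0 < (p + 1) * ∏ q, (b q + 1) :=
      Nat.mul_pos (by omega) (Finset.prod_pos fun _ _ => by omega)
    omega
  · refine DFunLike.ext _ _ fun x => ?_
    set q : G ⧸ K (i, p) := (x : G ⧸ K (i, p)) with hq
    have h1 : x - q.out ∈ K (i, p) := by
      have : ((q.out : G) : G ⧸ K (i, p)) = (x : G ⧸ K (i, p)) := by
        rw [hq]; exact QuotientAddGroup.out_eq' _
      have h2 := QuotientAddGroup.eq.1 this
      rwa [neg_add_eq_sub] at h2
    have h3 : x = (x - q.out) + q.out := by abel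
    rw [h3, map_add, map_add]
    congr 1
    · refine period φ (a := i) (b := p + 1) ((hK _ _).1 h1) (by omega) (Dvd.intro _ rfl)
    · refine period φ (a := a q) (b := b q + 1) (hab q) ?_ ?_
      · have : a q ≤ ∑ q, a q := Finset.single_le_sum (fun _ _ => Nat.zero_le _) (Finset.mem_univ q)
        omega
      · exact Dvd.dvd.mul_left (Finset.dvd_prod_of_mem (fun q => b q + 1) (Finset.mem_univ q)) _

/-- Quasi-periodicity on all `G[m]` gives entropy `0`. -/
theorem ent_zero_of (φ : AddMonoid.End G)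
    (h : ∀ m : ℕ, 0 < m → ∃ i j : ℕ, i < j ∧ ∀ x : G, m • x = 0 → (φ ^ i) x = (φ ^ j) x) :
    ent φ = 0 := by
  refine le_antisymm (iSup_le ?_) (ent_nonneg φ)
  rintro ⟨F, hF⟩
  obtain ⟨i, j, hij, hx⟩ := h (Nat.card F) Nat.card_pos
  have hF' : ∀ x ∈ F, (φ ^ i) x = (φ ^ j) x := by
    intro x hxF
    apply hx
    have h1 : Nat.card F • (⟨x, hxF⟩ : F) = 0 := card_nsmul_eq_zero'
    exact congrArg Subtype.val h1
  have hk : ∀ k, ∀ x ∈ F, (φ ^ k) x ∈ traj φ F j := by
    intro k
    induction k using Nat.strong_induction_on with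
    | _ k ih =>
      intro x hxF
      rcases Nat.lt_or_ge k j with h1 | h1
      · exact mem_traj φ F h1 hxF
      · have e1 : k = (k - j) + j := by omega
        have e2 : (φ ^ k) x = (φ ^ (k - j + i)) x := by
          conv_lhs => rw [e1]
          rw [pow_add_apply, ← hF' x hxF, ← pow_add_apply]
        rw [e2]
        exact ih _ (by omega) x hxF
  have := H_eq_zero φ F (traj φ F j) (fun n => traj_le fun k _ x hxF => hk k x hxF)
  simp [this]

/-- The dichotomy for all compact Hausdorff abelian groups. -/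
theorem dichotomy [TopologicalSpace G] [IsTopologicalAddGroup G] [CompactSpace G] [T2Space G]
    (φ : AddMonoid.End G) (hφ : Continuous φ) :
    (ent φ = 0 ∨ ent φ = ⊤) ∧
    (ent φ = 0 ↔ ∀ m : ℕ, 0 < m → ∃ i j : ℕ, i < j ∧ ∀ x : G, m • x = 0 →
      (φ ^ i) x = (φ ^ j) x) := by
  have hc : ∀ m : ℕ, CompactSpace (tor G m) := by
    intro m
    have h1 : IsClosed (tor G m : Set G) := by
      have : (tor G m : Set G) = {x : G | m • x = 0} := by
        ext x; exact mem_tor
      rw [this]
      exact isClosed_eq (continuous_nsmul m) continuous_const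
    exact isCompact_iff_compactSpace.1 h1.isCompact
  have ht : ∀ m : ℕ, 0 < m → ∀ x : tor G m, IsOfFinAddOrder x := by
    intro m hm x
    rw [isOfFinAddOrder_iff_nsmul_eq_zero]
    exact ⟨m, hm, Subtype.ext (mem_tor.1 x.2)⟩
  have hcont : ∀ m : ℕ, Continuous (restr φ (tor G m) (tor_inv φ m)) := by
    intro m
    exact (hφ.comp continuous_subtype_val).subtype_mk _
  have h0 : ent φ ≠ ⊤ → ∀ m : ℕ, 0 < m → ent (restr φ (tor G m) (tor_inv φ m)) = 0 := by
    intro h m hm
    have := hc m
    rcases ent_zero_or_top (ht m hm) _ (hcont m) with h1 | h1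
    · exact h1
    · exfalso
      apply h
      have := ent_restr_le φ (tor G m) (tor_inv φ m)
      rw [h1] at this
      exact top_le_iff.1 this
  refine ⟨?_, fun h m hm => ?_, ent_zero_of φ⟩
  · by_cases h : ent φ = ⊤
    · exact Or.inr h
    · exact Or.inl (le_antisymm (ent_le_of_tor φ fun m hm => (h0 h m hm).le) (ent_nonneg φ))
  · have := hc m
    obtain ⟨i, j, hij, he⟩ := quasiperiodic (ht m hm) _ (hcont m)
      (h0 (by rw [h]; exact EReal.zero_ne_top) m hm)
    refine ⟨i, j, hij, fun x hx => ?_⟩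
    have h1 := congrArg (fun f : AddMonoid.End (tor G m) =>
      ((f ⟨x, mem_tor.2 hx⟩ : tor G m) : G)) he
    simp only [restr_pow] at h1
    exact h1

/-- **Algebraic entropy of continuous endomorphisms of compact abelian groups.**
(1) The limits defining the entropy exist.
(2) For every compact Hausdorff abelian group `G` and every continuous endomorphism `φ` of `G`,
`ent(φ)` is `0` or `∞`; and it is `0` if and only if for every `m ≥ 1` there are `i < j` with
`φ^i = φ^j` on `G[m]`.
(3) If `K` is a finite abelian group with the discrete topology and `I` is any set, then every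
continuous endomorphism `φ` of `K^I` with `φ^i ≠ φ^j` for all `i < j` has `ent(φ) = ∞`, and all others
have `ent(φ) = 0`. -/
theorem result :
    (∀ (G : Type u) [AddCommGroup G] (φ : AddMonoid.End G) (F : AddSubgroup G), Finite F →
      Tendsto (fun n : ℕ => Real.log (Nat.card (traj φ F n)) / n) atTop (𝓝 (H φ F))) ∧
    (∀ (G : Type u) [AddCommGroup G] [TopologicalSpace G] [IsTopologicalAddGroup G]
      [CompactSpace G] [T2Space G] (φ : AddMonoid.End G), Continuous φ →
      (ent φ = 0 ∨ ent φ = ⊤) ∧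
      (ent φ = 0 ↔ ∀ m : ℕ, 0 < m → ∃ i j : ℕ, i < j ∧ ∀ x : G, m • x = 0 →
        (φ ^ i) x = (φ ^ j) x)) ∧
    (∀ (K : Type u) (I : Type v) [AddCommGroup K] [Finite K] [TopologicalSpace K]
      [DiscreteTopology K] (φ : AddMonoid.End (I → K)), Continuous φ →
      (ent φ = 0 ∨ ent φ = ⊤) ∧ (ent φ = 0 ↔ ∃ i j : ℕ, i < j ∧ φ ^ i = φ ^ j)) := by
  refine ⟨fun G _ φ F hF => tendsto_H φ F, fun G _ _ _ _ _ φ hφ => dichotomy φ hφ, ?_⟩
  intro K I _ _ _ _ φ hφ
  have h := dichotomy φ hφ
  refine ⟨h.1, fun h0 => ?_, fun ⟨i, j, hij, he⟩ => h.2.2 fun m _ =>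
    ⟨i, j, hij, fun x _ => by rw [he]⟩⟩
  obtain ⟨i, j, hij, hx⟩ := h.2.1 h0 (Nat.card K) Nat.card_pos
  refine ⟨i, j, hij, DFunLike.ext _ _ fun x => hx x ?_⟩
  funext t
  rw [Pi.smul_apply, card_nsmul_eq_zero']
  rfl

end Pool.Agent.Results.MP_e13f3c_al.AllCompactGroups
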